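import Pool.Agent.Run7.h794.WN.Flat
import Pool.Agent.N384.MQ.Ex
import Pool.Agent.N384.MQ.Quot

/-!
# Primes at a distance of at most a power of the logarithm, on almost all translates of arbitrary sets by the members of very small families of residues

For almost all members `b` of a family of residues with small Fourier coefficients (which may have only a power of `log N`
members), and for all their neighbours, the translates `A + b` of up to `log ^ T N` ARBITRARY sets of at least `N / log ^ C N`
integers have the expected number of primes to the right of their points, for all lengths of the intervals from a power of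
`log N` to `N`, and for more than a proportion `1/4 - ε` of the `a ∈ A` there is a prime at a distance of at most `log ^ K N` from
`a + b`.

From Mathlib: `ZMod.stdAddChar`: the additive character `j ↦ exp (2 π i j / q)` of the integers modulo `q`; `ZMod.val`: the
least residue.

From the starting files: the passage from exponential sums to sums with arbitrary coefficients (`Pool.Agent.N625.DY.cls_one`),
Selberg's upper bound function over short intervals (`Pool.Agent.W301.SS`, `Pool.Agent.TH646.TT`), the fundamental lemma of the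
sieve (`Pool.Agent.H373R2.T7.sys_fund`).

Method: a family of residues modulo `M` with small Fourier coefficients has small exponential sums at all real
frequencies which are not close to integers, its least residues are not concentrated on short intervals, and the large
spectrum of all their multiples is thin (library `Pool.Agent.N384.MQ`). The fixed exponent `V` comes from a compactness
argument. Examples: a lemma of Ajtai, Iwaniec, Komlos, Pintz and Szemeredi on quotients by small primes, the Stepanov type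
lemma of Heath-Brown and Konyagin for subgroups (library `H435R3.HBK`, `N825.FC`), and Weyl sums without losses (library
`H373R2.NB`).
-/

set_option autoImplicit false

namespace Pool.Agent.Results.MP_711652_nt.ResidueFamilyTranslates

open Finset

/-- The Fourier coefficients of the residues `y i`, `i ∈ s`, modulo `q` at the nonzero frequencies are at most
`η` times the number of the residues: `|∑ i ∈ s, e(h y_i / q)| ≤ η |s|` for all `h ≠ 0` modulo `q`. -/
def Flat {ι : Type} (q : ℕ) [NeZero q] (η : ℝ) (s : Finset ι) (y : ι → ZMod q) : Prop :=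
  ∀ h : ZMod q, h ≠ 0 → ‖∑ i ∈ s, (ZMod.stdAddChar (h * y i) : ℂ)‖ ≤ η * s.card

/-- The number of the primes in `(n, n + y]`. -/
def primesIn (n y : ℕ) : ℕ := ((Ioc n (n + y)).filter Nat.Prime).card

open Classical in
/-- For all integers `y` with `log ^ K N ≤ y ≤ N` the average of `primesIn (a + b) y` over the `a ∈ A` differs from `y / log N` by
at most `ε y / log N`, and at least `(1 / 4 - ε) |A|` elements `a` of `A` have at least `ε y / log N` primes in
`(a + b, a + b + y]`. -/
def Good (ε : ℝ) (K N : ℕ) (A : Finset ℕ) (b : ℕ) : Prop :=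
  ∀ y : ℕ, Real.log N ^ K ≤ y → y ≤ N →
    |(∑ a ∈ A, (primesIn (a + b) y : ℝ)) * Real.log N - A.card * y| ≤ ε * (A.card * y) ∧
    (1 / 4 - ε) * A.card ≤ ((A.filter fun a => ε * y ≤ (primesIn (a + b) y : ℝ) * Real.log N).card : ℝ)

open Classical in
/-- **(1)** Let `κ ≥ 1`, `B`, `C`, `T`, `W`, `U`, `a` and `0 < ε ≤ 1 / 4` be fixed. There are numbers `V` and `K` such that the
following holds for all large integers `N`. Let `N / log ^ a N ≤ q ≤ N`, let `y i`, `i ∈ s`, be a finite family of residues
modulo `q` whose Fourier coefficients at the nonzero frequencies are at most `|s| / log ^ V q`, let `0 ≤ c ≤ B N`, and let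
`A 1, ..., A J`, `J ≤ log ^ T N`, be ARBITRARY sets of at least `N / log ^ C N` integers in `[1, N]`. Then all the `i ∈ s`, with at
most `|s| / log ^ U N` exceptions, have the following property: for ALL the integers `1 ≤ b ≤ N` with
`c + κ y_i ≤ b ≤ c + κ y_i + log ^ W N` (with the least residue `0 ≤ y_i < q`), for all `l` and for ALL integers `y` with
`log ^ K N ≤ y ≤ N`: the average over `a ∈ A l` of the number of the primes in `(a + b, a + b + y]` differs from `y / log N` by at
most `ε y / log N`, and at least `(1 / 4 - ε) |A l|` elements `a` of `A l` have at least `ε y / log N` primes in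
`(a + b, a + b + y]`.

**(2)**, **(3)** Examples. The condition of (1) holds modulo all large primes `p` for:
* the quotients `j / r` of the integers `0 ≤ j < S` by the primes `r ≤ R`, if `log ^ (V + 4) p ≤ R < p` and `R ^ 2 ≤ S`; thus
  there are such explicit sets with only `log ^ (3 V + 12) p` members;
* the cosets of all subgroups of the multiplicative group of an order of at least `p ^ (3/8) log ^ (3 V + 1) p`;
* the residues `a b + g(a) + k(b)`, `a ∈ A`, `b ∈ B`, for arbitrary sets with `|A| |B| ≥ p log ^ (2 V) p` and arbitrary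
  functions `g` and `k`;
* the values `f(n)`, `0 ≤ n < x`, of all integer polynomials of degree `d` whose leading coefficient is not divisible by
  `p`, if `x ^ d ≥ p log ^ C p`, where `C` depends on `d` and `V`. -/
theorem result :
    (∀ κ : ℕ, 1 ≤ κ → ∀ (B C T W U a : ℕ) (ε : ℝ), 0 < ε → ε ≤ 1 / 4 → ∃ V K N₀ : ℕ, ∀ N : ℕ, N₀ ≤ N →
      ∀ q : ℕ, ∀ [NeZero q], q ≤ N → (N : ℝ) ≤ q * Real.log N ^ a →
      ∀ (ι : Type) (s : Finset ι) (y : ι → ZMod q), Flat q (1 / Real.log q ^ V) s y → ∀ c : ℕ, c ≤ B * N →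
      ∀ (J : ℕ) (A : Fin J → Finset ℕ), (J : ℝ) ≤ Real.log N ^ T → (∀ l, A l ⊆ Icc 1 N) →
      (∀ l, N / Real.log N ^ C ≤ ((A l).card : ℝ)) →
      ((s.filter fun i => ¬ ∀ b : ℕ, 1 ≤ b → b ≤ N → c + κ * (y i).val ≤ b →
        (b : ℝ) ≤ c + κ * ((y i).val : ℕ) + Real.log N ^ W → ∀ l, Good ε K N (A l) b).card : ℝ) ≤
        s.card / Real.log N ^ U) ∧
    (∀ V : ℕ, ∃ P₀ : ℕ, ∀ p : ℕ, P₀ ≤ p → ∀ [Fact p.Prime],
      (∀ R S : ℕ, Real.log p ^ (V + 4) ≤ R → R < p → R ^ 2 ≤ S →
        Flat p (1 / Real.log p ^ V) (((Icc 1 R).filter Nat.Prime) ×ˢ range S)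
          (fun z => ((z.2 : ℕ) : ZMod p) * ((z.1 : ℕ) : ZMod p)⁻¹)) ∧
      (∀ (H : Subgroup (ZMod p)ˣ) (s : Finset (ZMod p)ˣ), (∀ u, u ∈ s ↔ u ∈ H) →
        (p : ℝ) ^ (3 / 8 : ℝ) * Real.log p ^ (3 * V + 1) ≤ s.card → ∀ x : ZMod p, x ≠ 0 →
        Flat p (1 / Real.log p ^ V) s (fun u => x * (u : ZMod p))) ∧
      (∀ (A B : Finset (ZMod p)) (g k : ZMod p → ZMod p), (p : ℝ) * Real.log p ^ (2 * V) ≤ A.card * B.card →
        Flat p (1 / Real.log p ^ V) (A ×ˢ B) (fun z => z.1 * z.2 + g z.1 + k z.2))) ∧
    (∀ d V : ℕ, 1 ≤ d → ∃ C P₀ : ℕ, ∀ p : ℕ, P₀ ≤ p → ∀ [Fact p.Prime] (f : Polynomial ℤ), f.natDegree = d →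
      ¬ (p : ℤ) ∣ f.leadingCoeff → ∀ x : ℕ, (p : ℝ) * Real.log p ^ C ≤ (x : ℝ) ^ d →
      Flat p (1 / Real.log p ^ V) (range x) (fun n => ((f.eval (n : ℤ) : ℤ) : ZMod p))) := by
  refine ⟨fun κ hκ B C T W U a ε hε hε1 => ?_, fun V => ?_, fun d V hd => ?_⟩
  · obtain ⟨V, K, N₀, h⟩ := Pool.Agent.Run7.h794.WN.mq_windows κ hκ B C T W U a ε hε hε1
    refine ⟨V, K, N₀ + 4, fun N hN q _ hq1 hq2 ι s y hf c hc J A hJ hA1 hA2 => ?_⟩
    have hlog : 0 < Real.log N := by
      have := Pool.Agent.N193.PS.log_pos4 N (by omega)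
      linarith
    have h1 := h N (by omega) q hq1 hq2 ι s y hf c hc J A hJ hA1 (fun l => by
      have h2 := hA2 l
      rwa [div_le_iff₀ (by positivity)] at h2)
    refine le_trans ?_ h1
    have hsub : s.filter (fun i => ¬ ∀ b : ℕ, 1 ≤ b → b ≤ N → c + κ * (y i).val ≤ b →
        (b : ℝ) ≤ c + κ * ((y i).val : ℕ) + Real.log N ^ W → ∀ l, Good ε K N (A l) b) ⊆
        s.filter (fun i => ¬ ∀ t : ℕ, (t : ℝ) ≤ Real.log N ^ W → 1 ≤ c + κ * (y i).val + t →
          c + κ * (y i).val + t ≤ N → ∀ l, Pool.Agent.Run7.h794.WN.Good ε K N (A l) (c + κ * (y i).val + t)) := by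
      intro i hi
      rw [mem_filter] at hi ⊢
      refine ⟨hi.1, fun h3 => hi.2 fun b hb1 hb2 hb3 hb4 l => ?_⟩
      obtain ⟨t, ht⟩ : ∃ t, b = c + κ * (y i).val + t := ⟨b - (c + κ * (y i).val), by omega⟩
      have h4 := h3 t (by
        rw [ht] at hb4
        push_cast at hb4
        linarith) (by omega) (by omega) l
      rw [← ht] at h4
      intro z hz1 hz2
      obtain ⟨h5, h6⟩ := h4 z hz1 hz2
      refine ⟨h5, le_trans h6 (le_of_eq ?_)⟩
      unfold Pool.Agent.W301.SS.GG
      rfl
    exact_mod_cast card_le_card hsub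
  · obtain ⟨P₁, h1⟩ := Pool.Agent.N384.MQ.flat_quot V
    obtain ⟨P₂, h2⟩ := Pool.Agent.N384.MQ.flat_coset V
    obtain ⟨P₃, h3⟩ := Pool.Agent.N384.MQ.flat_prod V
    exact ⟨P₁ + P₂ + P₃, fun p hp _ => ⟨fun R S => h1 p (by omega) R S, fun H s => h2 p (by omega) H s,
      fun A B g k => h3 p (by omega) A B g k⟩⟩
  · exact Pool.Agent.N384.MQ.flat_poly d V hd

end Pool.Agent.Results.MP_711652_nt.ResidueFamilyTranslates
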