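import Pool.Agent.Run7.h52.AsmV7
import Pool.Agent.Run7.h52.M9

set_option autoImplicit false

namespace Pool.Agent.Results.MP_711652_nt.SquareWeightBrunTitchmarsh

open Run7.h52.TW

/-- the number of `m` in `(n, n + Y]` without prime factors `≤ z` -/
noncomputable def roughCount (z : ℝ) (Y : ℕ) (n : ℤ) : ℕ :=
  open Classical in ((Finset.Ioc n (n + Y)).filter fun m : ℤ =>
    ∀ p : ℕ, p.Prime → (p : ℝ) ≤ z → ¬ (p : ℤ) ∣ m).card

/-- the number of primes `> z` in `(n, n + Y]` -/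
noncomputable def primeCount (z : ℝ) (Y : ℕ) (n : ℤ) : ℕ :=
  open Classical in ((Finset.Ioc n (n + Y)).filter fun m : ℤ => z < (m : ℝ) ∧ Prime m).card

/-- `∏_{p ≤ z} (1 - 1/p)` -/
noncomputable def W (z : ℕ) : ℝ := ∏ p ∈ (Finset.Icc 1 z).filter Nat.Prime, (1 - 1 / (p : ℝ))

lemma rough_RC (z Y : ℕ) (n : ℤ) : roughCount (z : ℝ) Y n = Run7.h52.U20.RC z Y n := by
  classical
  unfold roughCount Run7.h52.U20.RC
  congr 1
  refine Finset.filter_congr fun m _ => ?_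
  constructor
  · intro h p hp
    rw [Finset.mem_filter, Finset.mem_Icc] at hp
    exact h p hp.2 (by exact_mod_cast hp.1.2)
  · intro h p hp hpz
    refine h p ?_
    rw [Finset.mem_filter, Finset.mem_Icc]
    exact ⟨⟨hp.one_lt.le, by exact_mod_cast hpz⟩, hp⟩

lemma prime_le (z : ℝ) (hz : 0 ≤ z) (Y : ℕ) (n : ℤ) : primeCount z Y n ≤ roughCount z Y n := by
  classical
  unfold primeCount roughCount
  refine Finset.card_le_card ?_
  intro m hm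
  rw [Finset.mem_filter] at hm ⊢
  refine ⟨hm.1, fun p hp hpz hd => ?_⟩
  have hpr : Prime (p : ℤ) := Nat.prime_iff_prime_int.1 hp
  have has := (hpr.dvd_prime_iff_associated hm.2.2).1 hd
  have h3 : (p : ℤ) = m ∨ (p : ℤ) = -m := Int.associated_iff.1 has
  have h4 := hm.2.1
  rcases h3 with h3 | h3
  · rw [← h3] at h4
    push_cast at h4
    linarith
  · have h5 : m = -(p : ℤ) := by linarith
    rw [h5] at h4
    push_cast at h4
    have : (0 : ℝ) ≤ p := Nat.cast_nonneg p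
    linarith

lemma rough_eq (z : ℝ) (Y : ℕ) (n : ℤ) :
    roughCount z Y n = (roughShifts z (Finset.Ioc (0 : ℤ) ((0 : ℤ) + (Y : ℤ))) n).card := by
  classical
  unfold roughCount roughShifts
  symm
  refine Finset.card_bij (fun h _ => n + h) ?_ ?_ ?_
  · intro h hh
    rw [Finset.mem_filter, Finset.mem_Ioc] at hh ⊢
    exact ⟨⟨by linarith [hh.1.1], by linarith [hh.1.2]⟩, hh.2⟩
  · intro a _ b _ hab
    linarith
  · intro m hm
    rw [Finset.mem_filter, Finset.mem_Ioc] at hm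
    refine ⟨m - n, ?_, by ring⟩
    rw [Finset.mem_filter, Finset.mem_Ioc]
    refine ⟨⟨by linarith [hm.1.1], by linarith [hm.1.2]⟩, ?_⟩
    have e : n + (m - n) = m := by ring
    rw [e]
    exact hm.2

/-- Brun–Titchmarsh for square weights, and rough numbers in almost all intervals. -/
theorem result (θ : ℝ) (hθ0 : 0 < θ) (hθ1 : θ < 1) :
    (∀ δ : ℝ, 0 < δ → ∃ C : ℝ, 0 < C ∧ ∃ T : ℝ, ∀ N : ℕ, T ≤ N → ∀ Y : ℕ,
      (Real.log N) ^ (1 + δ) ≤ Y → ∀ w : ℤ → ℝ, SquareWeight ((N : ℝ) ^ θ) w → ∀ x : ℤ,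
      ∑ n ∈ Finset.Ioc x (x + N), w n * (roughCount (Real.sqrt N) Y n : ℝ)
        ≤ C * (Y / Real.log N) * ∑ n ∈ Finset.Ioc x (x + N), w n ∧
      ∑ n ∈ Finset.Ioc x (x + N), w n * (primeCount (Real.sqrt N) Y n : ℝ)
        ≤ C * (Y / Real.log N) * ∑ n ∈ Finset.Ioc x (x + N), w n) ∧
    (∀ κ : ℝ, 0 < κ → ∃ A : ℕ, ∃ T : ℝ, ∀ N : ℕ, T ≤ N → ∀ Y : ℕ,
      (Real.log N) ^ A ≤ Y → ∀ w : ℤ → ℝ, SquareWeight ((N : ℝ) ^ θ) w → ∀ x : ℤ,
      ∑ n ∈ Finset.Ioc x (x + N), w n * (roughCount (Real.sqrt N) Y n : ℝ)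
        ≤ (2 / (1 - θ) + κ) * (Y / Real.log N) * ∑ n ∈ Finset.Ioc x (x + N), w n ∧
      ∑ n ∈ Finset.Ioc x (x + N), w n * (primeCount (Real.sqrt N) Y n : ℝ)
        ≤ (2 / (1 - θ) + κ) * (Y / Real.log N) * ∑ n ∈ Finset.Ioc x (x + N), w n) ∧
    (∀ A κ : ℝ, 2 < A → 0 < κ → ∃ c : ℝ, 0 < c ∧ ∃ T : ℝ, ∀ N : ℕ, T ≤ N → ∀ Y z : ℕ,
      (Real.log N) ^ A ≤ Y → (z : ℝ) ≤ (N : ℝ) ^ c →
      ∀ w : ℤ → ℝ, SquareWeight ((N : ℝ) ^ θ) w → ∀ x : ℤ,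
      ∑ n ∈ (Finset.Ioc x (x + N)).filter (fun n =>
          (2 * Real.exp Real.eulerMascheroniConstant / Real.Gamma (A + 1) + κ) * (W z * Y) <
            |(roughCount z Y n : ℝ) - W z * Y|), w n
        ≤ κ * ∑ n ∈ Finset.Ioc x (x + N), w n ∧
      (A ≤ 4 → ∑ n ∈ (Finset.Ioc x (x + N)).filter (fun n => (roughCount z Y n : ℝ) <
          (2 * Real.exp Real.eulerMascheroniConstant * Real.log (A - 1) / A - κ) * (W z * Y)), w n
        ≤ κ * ∑ n ∈ Finset.Ioc x (x + N), w n)) := by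
  have key : ∀ (N Y : ℕ) (w : ℤ → ℝ), SquareWeight ((N : ℝ) ^ θ) w → ∀ (x : ℤ) (B : ℝ),
      ∑ n ∈ Finset.Ioc x (x + N), w n *
        ((roughShifts (Real.sqrt N) (Finset.Ioc (0 : ℤ) ((0 : ℤ) + (Y : ℤ))) n).card : ℝ) ≤ B →
      ∑ n ∈ Finset.Ioc x (x + N), w n * (roughCount (Real.sqrt N) Y n : ℝ) ≤ B ∧
      ∑ n ∈ Finset.Ioc x (x + N), w n * (primeCount (Real.sqrt N) Y n : ℝ) ≤ B := by
    intro N Y w hw x B hB
    have h1 : ∑ n ∈ Finset.Ioc x (x + N), w n * (roughCount (Real.sqrt N) Y n : ℝ) ≤ B := by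
      simp only [rough_eq]
      exact hB
    refine ⟨h1, (Finset.sum_le_sum fun n _ => ?_).trans h1⟩
    refine mul_le_mul_of_nonneg_left ?_ (Run7.h52.AsmV.sw_nonneg hw n)
    exact_mod_cast prime_le _ (Real.sqrt_nonneg _) Y n
  refine ⟨fun δ hδ => ?_, fun κ hκ => ?_, fun A κ hA hκ => ?_⟩
  · obtain ⟨C, hC, T, hT⟩ := Run7.h52.AsmV.partI θ δ hθ0 hθ1 hδ
    exact ⟨C, hC, T, fun N hN Y hY w hw x => key N Y w hw x _ (hT N hN Y hY w hw x)⟩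
  · obtain ⟨A, T, hT⟩ := Run7.h52.AsmV.partII θ κ hθ0 hθ1 hκ
    exact ⟨A, T, fun N hN Y hY w hw x => key N Y w hw x _ (hT N hN Y hY w hw x)⟩
  · obtain ⟨c, hc, T, H⟩ := Run7.h52.M9.realM hθ0 hθ1 hA hκ
    refine ⟨c, hc, T, fun N hN Y z hY hz w hw x => ?_⟩
    obtain ⟨h1, h2, _⟩ := H N hN Y z hY hz w hw x
    simp only [rough_RC]
    exact ⟨h1, h2⟩

end Pool.Agent.Results.MP_711652_nt.SquareWeightBrunTitchmarsh
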