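import Pool.Agent.Run7.h844.RP.K.K711652

/-!
# Primes at a distance of at most a power of the logarithm, on almost all translates of arbitrary sets by values of generalised polynomials at primes

Method: exponential sums over primes with the phase of a generalised polynomial: derivative bounds uniform in the
coefficients, van der Corput differencing of all orders, bilinear sums, Vaughan's identity (after `Pool.Agent.H895R3.NK`,
`Pool.Agent.H373R2.T7`); a discrete Fejér kernel for the passage from real numbers to their integer parts, and a kernel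
estimate for the concentration on short intervals which needs only the large frequencies (library
`Pool.Agent.Run7.h844.RP`, after `Pool.Agent.N384.MQ`, `Pool.Agent.N193.PS`). The passage from such exponential sums to sums
with arbitrary coefficients is from the starting files (`Pool.Agent.N625.DY.cls_one`), the passage to all lengths and the
proportion `1/4` (Selberg's upper bound function over short intervals) is `Pool.Agent.Run7.h794.WN`, after
`Pool.Agent.W301.SS`, `Pool.Agent.TH646.TT`.
-/

set_option autoImplicit false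

namespace Pool.Agent.Results.MP_711652_nt.ValuesAtPrimes

open Finset

/-- The generalised polynomial `∑ a x * t ^ x`, `x ∈ F`, with real exponents and coefficients. -/
noncomputable def genPoly (F : Finset ℝ) (a : ℝ → ℝ) (t : ℝ) : ℝ := ∑ x ∈ F, a x * t ^ x

/-- `c` is the largest exponent; it is positive and not an integer, and its coefficient is not zero. -/
def Leading (F : Finset ℝ) (a : ℝ → ℝ) (c : ℝ) : Prop :=
  c ∈ F ∧ (∀ x ∈ F, x ≤ c) ∧ 0 < c ∧ (∀ m : ℕ, c ≠ m) ∧ a c ≠ 0

/-- The number of the primes in `(n, n + y]`. -/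
def primesIn (n y : ℕ) : ℕ := ((Ioc n (n + y)).filter Nat.Prime).card

open Classical in
/-- For all integers `y` with `log ^ K N ≤ y ≤ N` the average of `primesIn (a + b) y` over the `a ∈ A` differs from `y / log N` by
at most `ε y / log N`, and at least `(1 / 4 - ε) |A|` elements `a` of `A` have at least `ε y / log N` primes in
`(a + b, a + b + y]`. -/
def Good (ε : ℝ) (K N : ℕ) (A : Finset ℕ) (b : ℕ) : Prop :=
  ∀ y : ℕ, Real.log N ^ K ≤ y → y ≤ N →
    |(∑ a ∈ A, (primesIn (a + b) y : ℝ)) * Real.log N - A.card * y| ≤ ε * (A.card * y) ∧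
    (1 / 4 - ε) * A.card ≤ ((A.filter fun a => ε * y ≤ (primesIn (a + b) y : ℝ) * Real.log N).card : ℝ)

/-- `Good` for all the sets `A 1, ..., A J` and for all the integers `1 ≤ b ≤ N` at a distance of at most `R` from `x`. -/
def AllGood (ε : ℝ) (K N J : ℕ) (A : Fin J → Finset ℕ) (R x : ℝ) : Prop :=
  ∀ b : ℕ, 1 ≤ b → b ≤ N → |(b : ℝ) - x| ≤ R → ∀ l, Good ε K N (A l) b

open Classical in
/-- Let `f` be a generalised polynomial whose largest exponent `c` is positive and not an integer and whose leading coefficient
is positive, and let `C`, `T`, `W`, `E`, `U` and `0 < ε ≤ 1 / 4` be fixed. There is a number `K` such that the following holds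
for all large `N`. Let `A 1, ..., A J`, `J ≤ log ^ T N`, be ARBITRARY sets of at least `N / log ^ C N` integers in `[1, N]`, let
`X ^ c log N ≤ N ≤ X ^ c log ^ W N` and `0 ≤ z ≤ X ^ c`. Then all the primes `X < p ≤ 2 X`, with at most
`X / log ^ U N` exceptions, have the following property: for ALL the integers `1 ≤ b ≤ N` at a distance of at most
`log ^ E N` from `f(p) + z`, for all `l` and for ALL integers `y` with `log ^ K N ≤ y ≤ N`: the average over `a ∈ A l` of the
number of the primes in `(a + b, a + b + y]` differs from `y / log N` by at most `ε y / log N`, and at least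
`(1 / 4 - ε) |A l|` elements `a` of `A l` have at least `ε y / log N` primes in `(a + b, a + b + y]`. In particular for more
than a proportion `1 / 4 - ε` of the `a ∈ A l` there is a prime at a distance of at most a power of the logarithm from
`a + b`. -/
theorem result (F : Finset ℝ) (a : ℝ → ℝ) (c : ℝ) (hF : Leading F a c) (hpos : 0 < a c) (C T W E U : ℕ) (ε : ℝ)
    (hε : 0 < ε) (hε1 : ε ≤ 1 / 4) :
    ∃ K N₀ : ℕ, ∀ N : ℕ, N₀ ≤ N → ∀ (J : ℕ) (A : Fin J → Finset ℕ), (J : ℝ) ≤ Real.log N ^ T →
      (∀ l, A l ⊆ Icc 1 N) → (∀ l, N / Real.log N ^ C ≤ ((A l).card : ℝ)) →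
      ∀ X : ℕ, (X : ℝ) ^ c * Real.log N ≤ N → (N : ℝ) ≤ (X : ℝ) ^ c * Real.log N ^ W →
      ∀ z : ℝ, 0 ≤ z → z ≤ (X : ℝ) ^ c →
      (((Ioc X (2 * X)).filter fun p : ℕ =>
        p.Prime ∧ ¬ AllGood ε K N J A (Real.log N ^ E) (genPoly F a p + z)).card : ℝ) ≤ X / Real.log N ^ U :=
  Pool.Agent.Run7.h844.RP.K711652.keyP F c hF.1 hF.2.2.2.1 hF.2.2.1 hF.2.1 a hpos C T W E U ε hε hε1

end Pool.Agent.Results.MP_711652_nt.ValuesAtPrimes
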